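import Mathlib

/-!
# MP_e55252_co, Q1: a locally maximal packing need not be globally maximal
-/

open Real

namespace Pool.Agent.Results.MP_e55252_co.LocalNotGlobal

/-- A finite planar graph with vertices `0, …, n - 1` together with a fixed planar embedding,
given as a straight-line drawing: distinct vertices are distinct points, no vertex lies on an edge
it does not belong to, and edges without a common endpoint are disjoint.  (Hence two edges with a
common endpoint meet only there.) -/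
structure PlaneGraph (n : ℕ) where
  /-- the abstract graph -/
  graph : SimpleGraph (Fin n)
  /-- the points that represent the vertices -/
  pos : Fin n → ℂ
  inj : Function.Injective pos
  vertex_edge : ∀ u v w, graph.Adj u v → w ≠ u → w ≠ v → pos w ∉ segment ℝ (pos u) (pos v)
  edge_edge : ∀ u v w z, graph.Adj u v → graph.Adj w z → u ≠ w → u ≠ z → v ≠ w → v ≠ z →
    Disjoint (segment ℝ (pos u) (pos v)) (segment ℝ (pos w) (pos z))

/-- For points `z`, the members of the list `l`, in this order, occur counterclockwise around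
`v`: the directions from `z v` to them have arguments that increase along the list and stay within
one full turn. -/
def OccurCCW {n : ℕ} (z : Fin n → ℂ) (v : Fin n) (l : List (Fin n)) : Prop :=
  ∃ θ : Fin n → ℝ,
    (∀ w ∈ l, ∃ r : ℝ, 0 < r ∧ z w - z v = r * Complex.exp (θ w * Complex.I)) ∧
    l.Pairwise (fun a b => θ a < θ b ∧ θ b < θ a + 2 * π)

/-- Around `v`, the neighbours of `v` occur in the same counterclockwise cyclic order for the
points `z` as in the fixed embedding. -/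
def SameOrderAt {n : ℕ} (G : PlaneGraph n) (z : Fin n → ℂ) (v : Fin n) : Prop :=
  ∃ l : List (Fin n), l.Nodup ∧ (∀ w, w ∈ l ↔ G.graph.Adj v w) ∧
    OccurCCW G.pos v l ∧ OccurCCW z v l

/-- The set of packings of `G`: circle `i` has centre `(p i).1` (a point of the plane `ℂ`) and
radius `(p i).2`. -/
def packings {n : ℕ} (G : PlaneGraph n) : Set (Fin n → ℂ × ℝ) :=
  {p | (∀ i, 0 < (p i).2) ∧
    (∀ i j, G.graph.Adj i j → ((p i).2 + (p j).2) ^ 2 =
      ((p i).1.re - (p j).1.re) ^ 2 + ((p i).1.im - (p j).1.im) ^ 2) ∧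
    ∀ v, SameOrderAt G (fun i => (p i).1) v}

/-- `ρ(p)`, the least radius divided by the largest radius. -/
noncomputable def ratio {n : ℕ} (p : Fin n → ℂ × ℝ) : ℝ :=
  (⨅ i, (p i).2) / ⨆ i, (p i).2

/-! ### The graph -/

/-- The edges: `K₄` on `0, 1, 2, 3`, a vertex `4` joined to `0, 1, 2` and a vertex `5` joined to
`0, 1, 3`. -/
def adjB : Fin 6 → Fin 6 → Bool := fun i j =>
  (i, j) ∈ [((0 : Fin 6), (1 : Fin 6)), (0, 2), (0, 3), (0, 4), (0, 5), (1, 2), (1, 3), (1, 4),
    (1, 5), (2, 3), (2, 4), (3, 5), (1, 0), (2, 0), (3, 0), (4, 0), (5, 0), (2, 1), (3, 1),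
    (4, 1), (5, 1), (3, 2), (4, 2), (5, 3)]

/-- The abstract graph. -/
def gr : SimpleGraph (Fin 6) where
  Adj i j := adjB i j = true
  symm := ⟨by decide⟩
  loopless := ⟨by decide⟩

def X : Fin 6 → ℤ := ![-1, 1, 0, 0, 0, 0]
def Y : Fin 6 → ℤ := ![0, 0, 3, 2, 4, 1]

def orient (a b c : Fin 6) : ℤ := (X b - X a) * (Y c - Y a) - (Y b - Y a) * (X c - X a)

/-- Sufficient condition for the disjointness of two segments of the drawing. -/
def Sep (u v w z : Fin 6) : Prop :=
  (0 < orient u v w ∧ 0 < orient u v z) ∨ (orient u v w < 0 ∧ orient u v z < 0) ∨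
  (0 < orient w z u ∧ 0 < orient w z v) ∨ (orient w z u < 0 ∧ orient w z v < 0) ∨
  (Y u < Y w ∧ Y u < Y z ∧ Y v < Y w ∧ Y v < Y z) ∨
  (Y w < Y u ∧ Y z < Y u ∧ Y w < Y v ∧ Y z < Y v)

instance (u v w z : Fin 6) : Decidable (Sep u v w z) := by unfold Sep; infer_instance

/-- The drawing. -/
noncomputable def dr (i : Fin 6) : ℂ := ⟨(X i : ℝ), (Y i : ℝ)⟩

theorem disjoint_of_functional (a b c : ℝ) {u v w z : ℂ}
    (hu : a * u.re + b * u.im ≤ c) (hv : a * v.re + b * v.im ≤ c)
    (hw : c < a * w.re + b * w.im) (hz : c < a * z.re + b * z.im) :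
    Disjoint (segment ℝ u v) (segment ℝ w z) := by
  rw [Set.disjoint_left]
  rintro x ⟨s, t, hs, ht, hst, rfl⟩ ⟨s', t', hs', ht', hst', hx⟩
  have h1 := congrArg Complex.re hx
  have h2 := congrArg Complex.im hx
  simp at h1 h2
  have e1 : s * (a * u.re + b * u.im) + t * (a * v.re + b * v.im) ≤ c := by
    have : t = 1 - s := by linarith
    subst this
    nlinarith [mul_le_mul_of_nonneg_left hu hs, mul_le_mul_of_nonneg_left hv ht]
  have e2 : c < s' * (a * w.re + b * w.im) + t' * (a * z.re + b * z.im) := by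
    have : t' = 1 - s' := by linarith
    subst this
    rcases hs'.eq_or_lt with h0 | h0
    · rw [← h0]; linarith
    · nlinarith [mul_lt_mul_of_pos_left hw h0, mul_le_mul_of_nonneg_left hz.le ht']
  have e3 : s' * (a * w.re + b * w.im) + t' * (a * z.re + b * z.im) =
      s * (a * u.re + b * u.im) + t * (a * v.re + b * v.im) := by
    linear_combination a * h1 + b * h2
  linarith

theorem disjoint_of_sep {u v w z : Fin 6} (h : Sep u v w z) :
    Disjoint (segment ℝ (dr u) (dr v)) (segment ℝ (dr w) (dr z)) := by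
  unfold Sep orient at h
  rcases h with ⟨h1, h2⟩ | ⟨h1, h2⟩ | ⟨h1, h2⟩ | ⟨h1, h2⟩ | ⟨h1, h2, h3, h4⟩ | ⟨h1, h2, h3, h4⟩
  · have h1' : (0 : ℝ) < (X v - X u) * (Y w - Y u) - (Y v - Y u) * (X w - X u) := by
      exact_mod_cast h1
    have h2' : (0 : ℝ) < (X v - X u) * (Y z - Y u) - (Y v - Y u) * (X z - X u) := by
      exact_mod_cast h2
    refine disjoint_of_functional (-((Y v : ℝ) - Y u)) ((X v : ℝ) - X u)
      ((X v - X u) * Y u - (Y v - Y u) * X u) ?_ ?_ ?_ ?_ <;> simp only [dr] <;> nlinarith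
  · have h1' : ((X v : ℝ) - X u) * (Y w - Y u) - (Y v - Y u) * (X w - X u) < 0 := by
      exact_mod_cast h1
    have h2' : ((X v : ℝ) - X u) * (Y z - Y u) - (Y v - Y u) * (X z - X u) < 0 := by
      exact_mod_cast h2
    refine disjoint_of_functional ((Y v : ℝ) - Y u) (-((X v : ℝ) - X u))
      (-((X v - X u) * Y u - (Y v - Y u) * X u)) ?_ ?_ ?_ ?_ <;> simp only [dr] <;> nlinarith
  · have h1' : (0 : ℝ) < (X z - X w) * (Y u - Y w) - (Y z - Y w) * (X u - X w) := by
      exact_mod_cast h1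
    have h2' : (0 : ℝ) < (X z - X w) * (Y v - Y w) - (Y z - Y w) * (X v - X w) := by
      exact_mod_cast h2
    refine (disjoint_of_functional (-((Y z : ℝ) - Y w)) ((X z : ℝ) - X w)
      ((X z - X w) * Y w - (Y z - Y w) * X w) ?_ ?_ ?_ ?_).symm <;> simp only [dr] <;> nlinarith
  · have h1' : ((X z : ℝ) - X w) * (Y u - Y w) - (Y z - Y w) * (X u - X w) < 0 := by
      exact_mod_cast h1
    have h2' : ((X z : ℝ) - X w) * (Y v - Y w) - (Y z - Y w) * (X v - X w) < 0 := by
      exact_mod_cast h2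
    refine (disjoint_of_functional ((Y z : ℝ) - Y w) (-((X z : ℝ) - X w))
      (-((X z - X w) * Y w - (Y z - Y w) * X w)) ?_ ?_ ?_ ?_).symm <;> simp only [dr] <;> nlinarith
  · have h1' : (Y u : ℝ) < Y w := by exact_mod_cast h1
    have h2' : (Y u : ℝ) < Y z := by exact_mod_cast h2
    have h3' : (Y v : ℝ) < Y w := by exact_mod_cast h3
    have h4' : (Y v : ℝ) < Y z := by exact_mod_cast h4
    refine disjoint_of_functional 0 1 (max (Y u) (Y v)) ?_ ?_ ?_ ?_ <;> simp [dr, *]
  · have h1' : (Y w : ℝ) < Y u := by exact_mod_cast h1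
    have h2' : (Y z : ℝ) < Y u := by exact_mod_cast h2
    have h3' : (Y w : ℝ) < Y v := by exact_mod_cast h3
    have h4' : (Y z : ℝ) < Y v := by exact_mod_cast h4
    refine (disjoint_of_functional 0 1 (max (Y w) (Y z)) ?_ ?_ ?_ ?_).symm <;> simp [dr, *]

theorem inj_XY : ∀ i j, X i = X j → Y i = Y j → i = j := by decide

theorem sep_vertex : ∀ u v w, adjB u v = true → w ≠ u → w ≠ v → Sep u v w w := by decide

set_option maxRecDepth 20000 in
theorem sep_edge : ∀ u v w z, (adjB u v && adjB w z && decide (u ≠ w) && decide (u ≠ z) &&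
    decide (v ≠ w) && decide (v ≠ z)) = true → Sep u v w z := by decide

/-- The graph with its fixed planar embedding. -/
noncomputable def G0 : PlaneGraph 6 where
  graph := gr
  pos := dr
  inj := by
    intro i j h
    have h1 : (X i : ℝ) = X j := congrArg Complex.re h
    have h2 : (Y i : ℝ) = Y j := congrArg Complex.im h
    exact inj_XY i j (by exact_mod_cast h1) (by exact_mod_cast h2)
  vertex_edge := by
    intro u v w h h1 h2 hmem
    exact Set.disjoint_left.1 (disjoint_of_sep (sep_vertex u v w h h1 h2)) hmem (by simp)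
  edge_edge := by
    intro u v w z h h' h1 h2 h3 h4
    have h : adjB u v = true := h
    have h' : adjB w z = true := h'
    exact disjoint_of_sep (sep_edge u v w z (by simp [h, h', h1, h2, h3, h4]))

/-! ### Directions -/

theorem dir_right {x y : ℝ} (hx : 0 < x) {z : ℂ} (hre : z.re = x) (him : z.im = y) (k : ℤ) :
    ∃ r : ℝ, 0 < r ∧
      z = r * Complex.exp (((arctan (y / x) + k * (2 * π) : ℝ) : ℂ) * Complex.I) := by
  have h1 : 0 < √(1 + (y / x) ^ 2) := Real.sqrt_pos.2 (by positivity)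
  refine ⟨x * √(1 + (y / x) ^ 2), by positivity, ?_⟩
  have h2 : Complex.exp (((arctan (y / x) + k * (2 * π) : ℝ) : ℂ) * Complex.I) =
      Complex.exp ((arctan (y / x) : ℝ) * Complex.I) := by
    rw [show (((arctan (y / x) + k * (2 * π) : ℝ) : ℂ) * Complex.I) =
      (arctan (y / x) : ℝ) * Complex.I + k * (2 * π * Complex.I) by push_cast; ring]
    rw [Complex.exp_add, Complex.exp_int_mul_two_pi_mul_I, mul_one]
  rw [h2]
  apply Complex.ext
  · rw [hre, Complex.re_ofReal_mul, Complex.exp_ofReal_mul_I_re, Real.cos_arctan]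
    field_simp
  · rw [him, Complex.im_ofReal_mul, Complex.exp_ofReal_mul_I_im, Real.sin_arctan]
    field_simp

theorem dir_left {x y : ℝ} (hx : x < 0) {z : ℂ} (hre : z.re = x) (him : z.im = y) (k : ℤ) :
    ∃ r : ℝ, 0 < r ∧
      z = r * Complex.exp (((π + arctan (y / x) + k * (2 * π) : ℝ) : ℂ) * Complex.I) := by
  obtain ⟨r, hr, h⟩ := dir_right (x := -x) (y := -y) (by linarith) (z := -z)
    (by simp [hre]) (by simp [him]) k
  refine ⟨r, hr, ?_⟩
  have h2 : (((π + arctan (y / x) + k * (2 * π) : ℝ) : ℂ) * Complex.I) =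
      ((arctan (-y / -x) + k * (2 * π) : ℝ) : ℂ) * Complex.I + π * Complex.I := by
    rw [neg_div_neg_eq]; push_cast; ring
  rw [h2, Complex.exp_add, Complex.exp_pi_mul_I, mul_neg_one, mul_neg, ← h, neg_neg]

theorem dir_up {y : ℝ} (hy : 0 < y) {z : ℂ} (hre : z.re = 0) (him : z.im = y) (k : ℤ) :
    ∃ r : ℝ, 0 < r ∧ z = r * Complex.exp (((π / 2 + k * (2 * π) : ℝ) : ℂ) * Complex.I) := by
  refine ⟨y, hy, ?_⟩
  have h2 : Complex.exp (((π / 2 + k * (2 * π) : ℝ) : ℂ) * Complex.I) = Complex.I := by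
    rw [show (((π / 2 + k * (2 * π) : ℝ) : ℂ) * Complex.I) =
      π / 2 * Complex.I + k * (2 * π * Complex.I) by push_cast; ring]
    rw [Complex.exp_add, Complex.exp_int_mul_two_pi_mul_I, mul_one, Complex.exp_pi_div_two_mul_I]
  rw [h2]
  apply Complex.ext <;> simp [hre, him]

theorem dir_down {y : ℝ} (hy : y < 0) {z : ℂ} (hre : z.re = 0) (him : z.im = y) (k : ℤ) :
    ∃ r : ℝ, 0 < r ∧
      z = r * Complex.exp (((π + π / 2 + k * (2 * π) : ℝ) : ℂ) * Complex.I) := by
  obtain ⟨r, hr, h⟩ := dir_up (y := -y) (by linarith) (z := -z)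
    (by simp [hre]) (by simp [him]) k
  refine ⟨r, hr, ?_⟩
  have h2 : (((π + π / 2 + k * (2 * π) : ℝ) : ℂ) * Complex.I) =
      ((π / 2 + k * (2 * π) : ℝ) : ℂ) * Complex.I + π * Complex.I := by
    push_cast; ring
  rw [h2, Complex.exp_add, Complex.exp_pi_mul_I, mul_neg_one, mul_neg, ← h, neg_neg]

theorem isDir_right {x y : ℝ} (hx : 0 < x) {z : ℂ} (hre : z.re = x) (him : z.im = y) (k : ℤ)
    {θ : ℝ} (hθ : θ = arctan (y / x) + k * (2 * π)) :
    ∃ r : ℝ, 0 < r ∧ z = r * Complex.exp (θ * Complex.I) := by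
  subst hθ; exact dir_right hx hre him k

theorem isDir_left {x y : ℝ} (hx : x < 0) {z : ℂ} (hre : z.re = x) (him : z.im = y) (k : ℤ)
    {θ : ℝ} (hθ : θ = π + arctan (y / x) + k * (2 * π)) :
    ∃ r : ℝ, 0 < r ∧ z = r * Complex.exp (θ * Complex.I) := by
  subst hθ; exact dir_left hx hre him k

theorem isDir_up {y : ℝ} (hy : 0 < y) {z : ℂ} (hre : z.re = 0) (him : z.im = y) (k : ℤ)
    {θ : ℝ} (hθ : θ = π / 2 + k * (2 * π)) :
    ∃ r : ℝ, 0 < r ∧ z = r * Complex.exp (θ * Complex.I) := by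
  subst hθ; exact dir_up hy hre him k

theorem isDir_down {y : ℝ} (hy : y < 0) {z : ℂ} (hre : z.re = 0) (him : z.im = y) (k : ℤ)
    {θ : ℝ} (hθ : θ = π + π / 2 + k * (2 * π)) :
    ∃ r : ℝ, 0 < r ∧ z = r * Complex.exp (θ * Complex.I) := by
  subst hθ; exact dir_down hy hre him k

theorem isR {z : ℂ} (x y m : ℝ) {θ : ℝ} (hx : 0 < x) (hre : z.re = x) (him : z.im = y)
    (hm : y = m * x) (k : ℤ) (hθ : θ = arctan m + k * (2 * π)) :
    ∃ r : ℝ, 0 < r ∧ z = r * Complex.exp (θ * Complex.I) :=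
  isDir_right hx hre him k (by rw [hθ, hm, mul_div_cancel_right₀ _ hx.ne'])

theorem isL {z : ℂ} (x y m : ℝ) {θ : ℝ} (hx : x < 0) (hre : z.re = x) (him : z.im = y)
    (hm : y = m * x) (k : ℤ) (hθ : θ = π + arctan m + k * (2 * π)) :
    ∃ r : ℝ, 0 < r ∧ z = r * Complex.exp (θ * Complex.I) :=
  isDir_left hx hre him k (by rw [hθ, hm, mul_div_cancel_right₀ _ hx.ne])

/-- The neighbours of each vertex in counterclockwise order. -/
def rot : Fin 6 → List (Fin 6) :=
  ![[1, 5, 3, 2, 4], [4, 2, 3, 5, 0], [4, 0, 3, 1], [2, 0, 5, 1], [0, 2, 1], [3, 0, 1]]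

theorem rot_nodup : ∀ v, (rot v).Nodup := by decide

theorem rot_mem : ∀ v w, w ∈ rot v ↔ adjB v w = true := by decide

/-- Two vertices at `-1` and `1` and the others on the imaginary axis. -/
theorem occur_axis {z : Fin 6 → ℂ} {h2 h3 h4 h5 : ℝ} (hz0 : z 0 = ⟨-1, 0⟩) (hz1 : z 1 = ⟨1, 0⟩)
    (hz2 : z 2 = ⟨0, h2⟩) (hz3 : z 3 = ⟨0, h3⟩) (hz4 : z 4 = ⟨0, h4⟩) (hz5 : z 5 = ⟨0, h5⟩)
    (h05 : 0 < h5) (h53 : h5 < h3) (h32 : h3 < h2) (h24 : h2 < h4) (v : Fin 6) :
    OccurCCW z v (rot v) := by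
  have a5 : 0 < arctan h5 := Real.arctan_pos.2 h05
  have a53 : arctan h5 < arctan h3 := Real.arctan_strictMono h53
  have a32 : arctan h3 < arctan h2 := Real.arctan_strictMono h32
  have a24 : arctan h2 < arctan h4 := Real.arctan_strictMono h24
  have a4 : arctan h4 < π / 2 := Real.arctan_lt_pi_div_two h4
  have hpi := Real.pi_pos
  fin_cases v
  · refine ⟨![0, 0, arctan h2, arctan h3, arctan h4, arctan h5], ?_, ?_⟩
    · intro w hw
      fin_cases w
      · simp [rot] at hw
      · exact isDir_right (x := 2) (y := 0) (by norm_num) (by simp [hz0, hz1]; norm_num)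
          (by simp [hz0, hz1]) 0 (by simp)
      · exact isDir_right (x := 1) (y := h2) (by norm_num) (by simp [hz0, hz2])
          (by simp [hz0, hz2]) 0 (by simp)
      · exact isDir_right (x := 1) (y := h3) (by norm_num) (by simp [hz0, hz3])
          (by simp [hz0, hz3]) 0 (by simp)
      · exact isDir_right (x := 1) (y := h4) (by norm_num) (by simp [hz0, hz4])
          (by simp [hz0, hz4]) 0 (by simp)
      · exact isDir_right (x := 1) (y := h5) (by norm_num) (by simp [hz0, hz5])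
          (by simp [hz0, hz5]) 0 (by simp)
    · simp [rot]
      repeat' apply And.intro
      all_goals linarith
  · refine ⟨![π, 0, π - arctan h2, π - arctan h3, π - arctan h4, π - arctan h5], ?_, ?_⟩
    · intro w hw
      fin_cases w
      · exact isDir_left (x := -2) (y := 0) (by norm_num) (by simp [hz0, hz1]; norm_num)
          (by simp [hz0, hz1]) 0 (by simp)
      · simp [rot] at hw
      · exact isDir_left (x := -1) (y := h2) (by norm_num) (by simp [hz1, hz2])
          (by simp [hz1, hz2]) 0 (by simp [div_neg, sub_eq_add_neg])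
      · exact isDir_left (x := -1) (y := h3) (by norm_num) (by simp [hz1, hz3])
          (by simp [hz1, hz3]) 0 (by simp [div_neg, sub_eq_add_neg])
      · exact isDir_left (x := -1) (y := h4) (by norm_num) (by simp [hz1, hz4])
          (by simp [hz1, hz4]) 0 (by simp [div_neg, sub_eq_add_neg])
      · exact isDir_left (x := -1) (y := h5) (by norm_num) (by simp [hz1, hz5])
          (by simp [hz1, hz5]) 0 (by simp [div_neg, sub_eq_add_neg])
    · simp [rot]
      repeat' apply And.intro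
      all_goals linarith
  · refine ⟨![π + arctan h2, 2 * π - arctan h2, 0, π + π / 2, π / 2, 0], ?_, ?_⟩
    · intro w hw
      fin_cases w
      · exact isDir_left (x := -1) (y := -h2) (by norm_num) (by simp [hz0, hz2])
          (by simp [hz0, hz2]) 0 (by simp)
      · exact isDir_right (x := 1) (y := -h2) (by norm_num) (by simp [hz1, hz2])
          (by simp [hz1, hz2]) 1 (by simp; ring)
      · simp [rot] at hw
      · exact isDir_down (y := h3 - h2) (by linarith) (by simp [hz3, hz2])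
          (by simp [hz3, hz2]) 0 (by simp)
      · exact isDir_up (y := h4 - h2) (by linarith) (by simp [hz4, hz2])
          (by simp [hz4, hz2]) 0 (by simp)
      · simp [rot] at hw
    · simp [rot]
      repeat' apply And.intro
      all_goals linarith
  · refine ⟨![π + arctan h3, 2 * π - arctan h3, π / 2, 0, 0, π + π / 2], ?_, ?_⟩
    · intro w hw
      fin_cases w
      · exact isDir_left (x := -1) (y := -h3) (by norm_num) (by simp [hz0, hz3])
          (by simp [hz0, hz3]) 0 (by simp)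
      · exact isDir_right (x := 1) (y := -h3) (by norm_num) (by simp [hz1, hz3])
          (by simp [hz1, hz3]) 1 (by simp; ring)
      · exact isDir_up (y := h2 - h3) (by linarith) (by simp [hz3, hz2])
          (by simp [hz3, hz2]) 0 (by simp)
      · simp [rot] at hw
      · simp [rot] at hw
      · exact isDir_down (y := h5 - h3) (by linarith) (by simp [hz3, hz5])
          (by simp [hz3, hz5]) 0 (by simp)
    · simp [rot]
      repeat' apply And.intro
      all_goals linarith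
  · refine ⟨![π + arctan h4, 2 * π - arctan h4, π + π / 2, 0, 0, 0], ?_, ?_⟩
    · intro w hw
      fin_cases w
      · exact isDir_left (x := -1) (y := -h4) (by norm_num) (by simp [hz0, hz4])
          (by simp [hz0, hz4]) 0 (by simp)
      · exact isDir_right (x := 1) (y := -h4) (by norm_num) (by simp [hz1, hz4])
          (by simp [hz1, hz4]) 1 (by simp; ring)
      · exact isDir_down (y := h2 - h4) (by linarith) (by simp [hz4, hz2])
          (by simp [hz4, hz2]) 0 (by simp)
      · simp [rot] at hw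
      · simp [rot] at hw
      · simp [rot] at hw
    · simp [rot]
      repeat' apply And.intro
      all_goals linarith
  · refine ⟨![π + arctan h5, 2 * π - arctan h5, 0, π / 2, 0, 0], ?_, ?_⟩
    · intro w hw
      fin_cases w
      · exact isDir_left (x := -1) (y := -h5) (by norm_num) (by simp [hz0, hz5])
          (by simp [hz0, hz5]) 0 (by simp)
      · exact isDir_right (x := 1) (y := -h5) (by norm_num) (by simp [hz1, hz5])
          (by simp [hz1, hz5]) 1 (by simp; ring)
      · simp [rot] at hw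
      · exact isDir_up (y := h3 - h5) (by linarith) (by simp [hz3, hz5])
          (by simp [hz3, hz5]) 0 (by simp)
      · simp [rot] at hw
      · simp [rot] at hw
    · simp [rot]
      repeat' apply And.intro
      all_goals linarith

/-- The rotation system of the second packing: two vertices on the real axis and two pairs of
vertices symmetric with respect to it. -/
theorem occur_sym {z : Fin 6 → ℂ} {t s : ℝ} (ht : 0 < t) (hs : 0 < s) (htt : t * t = 3)
    (hst : s < t / 3)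
    (hz0 : z 0 = ⟨-(2 * t / 3), 0⟩) (hz1 : z 1 = ⟨0, 0⟩) (hz2 : z 2 = ⟨t / 3, -1⟩)
    (hz3 : z 3 = ⟨t / 3, 1⟩) (hz4 : z 4 = ⟨-(s / 2), -(s * t / 2)⟩)
    (hz5 : z 5 = ⟨-(s / 2), s * t / 2⟩) (v : Fin 6) :
    OccurCCW z v (rot v) := by
  have hpi := Real.pi_pos
  have hst0 : 0 < s * t := by positivity
  have hst1 : s * t < 1 := by nlinarith
  have l1 : 0 < 2 * t / 3 - s / 2 := by linarith
  have l2 : 0 < t / 3 + s / 2 := by positivity
  have l3 : 0 < 1 - s * t / 2 := by linarith
  obtain ⟨mβ, hmβ⟩ : ∃ m, m = (s * t / 2) / (2 * t / 3 - s / 2) := ⟨_, rfl⟩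
  obtain ⟨mγ, hmγ⟩ : ∃ m, m = (1 - s * t / 2) / (t / 3 + s / 2) := ⟨_, rfl⟩
  have qβ : mβ * (2 * t / 3 - s / 2) = s * t / 2 := by rw [hmβ, div_mul_cancel₀ _ l1.ne']
  have qγ : mγ * (t / 3 + s / 2) = 1 - s * t / 2 := by rw [hmγ, div_mul_cancel₀ _ l2.ne']
  have c0 : 0 < mβ := by rw [hmβ]; positivity
  have c1 : mβ < t / 3 := by rw [hmβ, div_lt_iff₀ l1]; nlinarith
  have c2 : t / 3 < mγ := by rw [hmγ, lt_div_iff₀ l2]; nlinarith
  have c3 : mγ < t := by rw [hmγ, div_lt_iff₀ l2]; nlinarith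
  have b0 : 0 < arctan mβ := Real.arctan_pos.2 c0
  have bσ : arctan mβ < arctan (t / 3) := Real.arctan_strictMono c1
  have sγ : arctan (t / 3) < arctan mγ := Real.arctan_strictMono c2
  have γτ : arctan mγ < arctan t := Real.arctan_strictMono c3
  have τp : arctan t < π / 2 := Real.arctan_lt_pi_div_two t
  have n1 : arctan (-mβ) = -arctan mβ := Real.arctan_neg _
  have n2 : arctan (-mγ) = -arctan mγ := Real.arctan_neg _
  have n3 : arctan (-t) = -arctan t := Real.arctan_neg _
  have n4 : arctan (-(t / 3)) = -arctan (t / 3) := Real.arctan_neg _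
  fin_cases v
  · refine ⟨![0, 0, 2 * π - arctan (t / 3), arctan (t / 3), 2 * π - arctan mβ, arctan mβ], ?_, ?_⟩
    · intro w hw
      fin_cases w
      · simp [rot] at hw
      · exact isR (2 * t / 3) 0 0 (by positivity) (by simp [hz0, hz1]) (by simp [hz0, hz1])
          (by ring) 0 (by simp)
      · exact isR t (-1) (-(t / 3)) ht (by simp [hz0, hz2]; ring) (by simp [hz0, hz2])
          (by linarith) 1 (by rw [n4]; simp; ring)
      · exact isR t 1 (t / 3) ht (by simp [hz0, hz3]; ring) (by simp [hz0, hz3])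
          (by linarith) 0 (by simp)
      · exact isR (2 * t / 3 - s / 2) (-(s * t / 2)) (-mβ) l1 (by simp [hz0, hz4]; ring)
          (by simp [hz0, hz4]) (by linarith) 1 (by rw [n1]; simp; ring)
      · exact isR (2 * t / 3 - s / 2) (s * t / 2) mβ l1 (by simp [hz0, hz5]; ring)
          (by simp [hz0, hz5]) (by linarith) 0 (by simp)
    · simp [rot]
      repeat' apply And.intro
      all_goals linarith
  · refine ⟨![3 * π, 0, 2 * π - arctan t, 2 * π + arctan t, π + arctan t, 3 * π - arctan t],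
      ?_, ?_⟩
    · intro w hw
      fin_cases w
      · exact isL (-(2 * t / 3)) 0 0 (by linarith) (by simp [hz0, hz1]) (by simp [hz0, hz1])
          (by ring) 1 (by simp; ring)
      · simp [rot] at hw
      · exact isR (t / 3) (-1) (-t) (by positivity) (by simp [hz1, hz2]) (by simp [hz1, hz2])
          (by linarith) 1 (by rw [n3]; simp; ring)
      · exact isR (t / 3) 1 t (by positivity) (by simp [hz1, hz3]) (by simp [hz1, hz3])
          (by linarith) 1 (by simp; ring)
      · exact isL (-(s / 2)) (-(s * t / 2)) t (by linarith) (by simp [hz1, hz4])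
          (by simp [hz1, hz4]) (by ring) 0 (by simp)
      · exact isL (-(s / 2)) (s * t / 2) (-t) (by linarith) (by simp [hz1, hz5])
          (by simp [hz1, hz5]) (by ring) 1 (by rw [n3]; simp; ring)
    · simp [rot]
      repeat' apply And.intro
      all_goals linarith
  · refine ⟨![π - arctan (t / 3), 3 * π - arctan t, 0, π / 2 + 2 * π, π - arctan mγ, 0], ?_, ?_⟩
    · intro w hw
      fin_cases w
      · exact isL (-t) 1 (-(t / 3)) (by linarith) (by simp [hz0, hz2]; ring)
          (by simp [hz0, hz2]) (by linarith) 0 (by rw [n4]; simp; ring)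
      · exact isL (-(t / 3)) 1 (-t) (by linarith) (by simp [hz1, hz2])
          (by simp [hz1, hz2]) (by linarith) 1 (by rw [n3]; simp; ring)
      · simp [rot] at hw
      · exact isDir_up (y := 2) (by norm_num) (by simp [hz3, hz2])
          (by simp [hz3, hz2]; norm_num) 1 (by simp)
      · exact isL (-(t / 3 + s / 2)) (1 - s * t / 2) (-mγ) (by linarith)
          (by simp [hz4, hz2]; ring) (by simp [hz4, hz2]; ring) (by linarith) 0
          (by rw [n2]; simp; ring)
      · simp [rot] at hw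
    · simp [rot]
      repeat' apply And.intro
      all_goals linarith
  · refine ⟨![π + arctan (t / 3), π + arctan t, -(π / 2), 0, 0, π + arctan mγ], ?_, ?_⟩
    · intro w hw
      fin_cases w
      · exact isL (-t) (-1) (t / 3) (by linarith) (by simp [hz0, hz3]; ring)
          (by simp [hz0, hz3]) (by linarith) 0 (by simp)
      · exact isL (-(t / 3)) (-1) t (by linarith) (by simp [hz1, hz3])
          (by simp [hz1, hz3]) (by linarith) 0 (by simp)
      · exact isDir_down (y := -2) (by norm_num) (by simp [hz3, hz2])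
          (by simp [hz3, hz2]; norm_num) (-1)
          (by show -(π / 2) = π + π / 2 + ((-1 : ℤ) : ℝ) * (2 * π); push_cast; ring)
      · simp [rot] at hw
      · simp [rot] at hw
      · exact isL (-(t / 3 + s / 2)) (-(1 - s * t / 2)) mγ (by linarith)
          (by simp [hz5, hz3]; ring) (by simp [hz5, hz3]) (by linarith) 0
          (by simp)
    · simp [rot]
      repeat' apply And.intro
      all_goals linarith
  · refine ⟨![π - arctan mβ, 2 * π + arctan t, 2 * π - arctan mγ, 0, 0, 0], ?_, ?_⟩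
    · intro w hw
      fin_cases w
      · exact isL (-(2 * t / 3 - s / 2)) (s * t / 2) (-mβ) (by linarith)
          (by simp [hz0, hz4]; ring) (by simp [hz0, hz4]) (by linarith) 0
          (by rw [n1]; simp; ring)
      · exact isR (s / 2) (s * t / 2) t (by positivity) (by simp [hz1, hz4])
          (by simp [hz1, hz4]) (by ring) 1 (by simp; ring)
      · exact isR (t / 3 + s / 2) (-(1 - s * t / 2)) (-mγ) l2 (by simp [hz2, hz4])
          (by simp [hz2, hz4]; ring) (by linarith) 1 (by rw [n2]; simp; ring)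
      · simp [rot] at hw
      · simp [rot] at hw
      · simp [rot] at hw
    · simp [rot]
      repeat' apply And.intro
      all_goals linarith
  · refine ⟨![π + arctan mβ, 2 * π - arctan t, 0, arctan mγ, 0, 0], ?_, ?_⟩
    · intro w hw
      fin_cases w
      · exact isL (-(2 * t / 3 - s / 2)) (-(s * t / 2)) mβ (by linarith)
          (by simp [hz0, hz5]; ring) (by simp [hz0, hz5]) (by linarith) 0
          (by simp)
      · exact isR (s / 2) (-(s * t / 2)) (-t) (by positivity) (by simp [hz1, hz5])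
          (by simp [hz1, hz5]) (by ring) 1 (by rw [n3]; simp; ring)
      · simp [rot] at hw
      · exact isR (t / 3 + s / 2) (1 - s * t / 2) mγ l2 (by simp [hz3, hz5])
          (by simp [hz3, hz5]) (by linarith) 0 (by simp)
      · simp [rot] at hw
      · simp [rot] at hw
    · simp [rot]
      repeat' apply And.intro
      all_goals linarith

/-! ### The two packings -/

/-- Centres and radii of the locally maximal packing. -/
noncomputable def p0 : Fin 6 → ℂ × ℝ :=
  ![(⟨-1, 0⟩, 1), (⟨1, 0⟩, 1), (⟨0, √3 / 3⟩, (2 * √3 - 3) / 3),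
    (⟨0, (24 - 7 * √3) / 33⟩, (9 - 4 * √3) / 33), (⟨0, √3⟩, 1),
    (⟨0, (96 - 17 * √3) / 253⟩, (19 - 6 * √3) / 253)]

/-- Centres and radii of the packing with a larger radius ratio. -/
noncomputable def q0 : Fin 6 → ℂ × ℝ :=
  ![(⟨-(2 * √3 / 3), 0⟩, 1), (⟨0, 0⟩, (2 * √3 - 3) / 3), (⟨√3 / 3, -1⟩, 1), (⟨√3 / 3, 1⟩, 1),
    (⟨-((3 * √3 - 4) / 11), -((9 - 4 * √3) / 11)⟩, (9 - 4 * √3) / 33),
    (⟨-((3 * √3 - 4) / 11), (9 - 4 * √3) / 11⟩, (9 - 4 * √3) / 33)]

theorem sq3 : √3 * √3 = 3 := Real.mul_self_sqrt (by norm_num)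

theorem lo3 : 1.732 < √3 := by
  rw [Real.lt_sqrt (by norm_num)]; norm_num

theorem hi3 : √3 < 1.7321 := by
  rw [Real.sqrt_lt' (by norm_num)]; norm_num

theorem sameOrder {z : Fin 6 → ℂ} (h : ∀ v, OccurCCW z v (rot v)) (v : Fin 6) :
    SameOrderAt G0 z v := by
  refine ⟨rot v, rot_nodup v, fun w => rot_mem v w, ?_, h v⟩
  exact occur_axis (z := dr) (h2 := 3) (h3 := 2) (h4 := 4) (h5 := 1)
    (by simp [dr, X, Y]) (by simp [dr, X, Y]) (by simp [dr, X, Y]) (by simp [dr, X, Y])
    (by simp [dr, X, Y]) (by simp [dr, X, Y]) (by norm_num) (by norm_num) (by norm_num)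
    (by norm_num) v

theorem edges_list {P : Fin 6 → Fin 6 → Prop} (hsymm : ∀ i j, P i j → P j i)
    (h01 : P 0 1) (h02 : P 0 2) (h03 : P 0 3) (h04 : P 0 4) (h05 : P 0 5) (h12 : P 1 2)
    (h13 : P 1 3) (h14 : P 1 4) (h15 : P 1 5) (h23 : P 2 3) (h24 : P 2 4) (h35 : P 3 5) :
    ∀ i j, gr.Adj i j → P i j := by
  intro i j h
  have h' : adjB i j = true := h
  simp only [adjB, List.mem_cons, Prod.mk.injEq, List.not_mem_nil, or_false, decide_eq_true_eq] at h'
  rcases h' with h | h | h | h | h | h | h | h | h | h | h | h | h | h | h | h | h | h | h | h |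
    h | h | h | h <;> obtain ⟨rfl, rfl⟩ := h <;> first | assumption | (apply hsymm; assumption)

theorem p0_mem : p0 ∈ packings G0 := by
  have h3 := sq3
  have hl := lo3
  have hh := hi3
  refine ⟨?_, ?_, ?_⟩
  · intro i
    fin_cases i <;> simp [p0] <;> linarith
  · apply edges_list (P := fun i j => ((p0 i).2 + (p0 j).2) ^ 2 =
      ((p0 i).1.re - (p0 j).1.re) ^ 2 + ((p0 i).1.im - (p0 j).1.im) ^ 2)
    · intro i j h
      rw [add_comm, h]; ring
    all_goals simp [p0]
    all_goals nlinarith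
  · intro v
    apply sameOrder
    apply occur_axis (h2 := √3 / 3) (h3 := (24 - 7 * √3) / 33) (h4 := √3)
      (h5 := (96 - 17 * √3) / 253) <;> first | (simp [p0]; done) | linarith

theorem q0_mem : q0 ∈ packings G0 := by
  have h3 := sq3
  have hl := lo3
  have hh := hi3
  refine ⟨?_, ?_, ?_⟩
  · intro i
    fin_cases i <;> simp [q0] <;> linarith
  · apply edges_list (P := fun i j => ((q0 i).2 + (q0 j).2) ^ 2 =
      ((q0 i).1.re - (q0 j).1.re) ^ 2 + ((q0 i).1.im - (q0 j).1.im) ^ 2)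
    · intro i j h
      rw [add_comm, h]; ring
    all_goals simp [q0]
    all_goals nlinarith
  · intro v
    apply sameOrder
    have e1 : (6 * √3 - 8) / 11 / 2 = (3 * √3 - 4) / 11 := by ring
    have e2 : (6 * √3 - 8) / 11 * √3 / 2 = (9 - 4 * √3) / 11 := by nlinarith
    apply occur_sym (t := √3) (s := (6 * √3 - 8) / 11) (by linarith) (by linarith) h3
      (by linarith) <;> simp [q0, e1, e2]

/-! ### Descartes' circle theorem and local maximality -/

theorem descartes_poly {x1 y1 x2 y2 x3 y3 x4 y4 a b c d : ℝ}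
    (h12 : (a + b) ^ 2 = (x1 - x2) ^ 2 + (y1 - y2) ^ 2)
    (h13 : (a + c) ^ 2 = (x1 - x3) ^ 2 + (y1 - y3) ^ 2)
    (h14 : (a + d) ^ 2 = (x1 - x4) ^ 2 + (y1 - y4) ^ 2)
    (h23 : (b + c) ^ 2 = (x2 - x3) ^ 2 + (y2 - y3) ^ 2)
    (h24 : (b + d) ^ 2 = (x2 - x4) ^ 2 + (y2 - y4) ^ 2)
    (h34 : (c + d) ^ 2 = (x3 - x4) ^ 2 + (y3 - y4) ^ 2) :
    (b * c * d + a * c * d + a * b * d + a * b * c) ^ 2 =
      2 * ((b * c * d) ^ 2 + (a * c * d) ^ 2 + (a * b * d) ^ 2 + (a * b * c) ^ 2) := by
  obtain ⟨g22, e22⟩ : ∃ g, g = (x2 - x1) * (x2 - x1) + (y2 - y1) * (y2 - y1) := ⟨_, rfl⟩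
  obtain ⟨g33, e33⟩ : ∃ g, g = (x3 - x1) * (x3 - x1) + (y3 - y1) * (y3 - y1) := ⟨_, rfl⟩
  obtain ⟨g44, e44⟩ : ∃ g, g = (x4 - x1) * (x4 - x1) + (y4 - y1) * (y4 - y1) := ⟨_, rfl⟩
  obtain ⟨g23, e23⟩ : ∃ g, g = (x2 - x1) * (x3 - x1) + (y2 - y1) * (y3 - y1) := ⟨_, rfl⟩
  obtain ⟨g24, e24⟩ : ∃ g, g = (x2 - x1) * (x4 - x1) + (y2 - y1) * (y4 - y1) := ⟨_, rfl⟩
  obtain ⟨g34, e34⟩ : ∃ g, g = (x3 - x1) * (x4 - x1) + (y3 - y1) * (y4 - y1) := ⟨_, rfl⟩
  have key : g22 * g33 * g44 + 2 * g23 * g24 * g34 - g22 * g34 ^ 2 - g33 * g24 ^ 2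
      - g44 * g23 ^ 2 = 0 := by
    rw [e22, e33, e44, e23, e24, e34]; ring
  have f22 : g22 = (a + b) ^ 2 := by rw [e22, h12]; ring
  have f33 : g33 = (a + c) ^ 2 := by rw [e33, h13]; ring
  have f44 : g44 = (a + d) ^ 2 := by rw [e44, h14]; ring
  have f23 : g23 = ((a + b) ^ 2 + (a + c) ^ 2 - (b + c) ^ 2) / 2 := by
    rw [e23, h12, h13, h23]; ring
  have f24 : g24 = ((a + b) ^ 2 + (a + d) ^ 2 - (b + d) ^ 2) / 2 := by
    rw [e24, h12, h14, h24]; ring
  have f34 : g34 = ((a + c) ^ 2 + (a + d) ^ 2 - (c + d) ^ 2) / 2 := by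
    rw [e34, h13, h14, h34]; ring
  rw [f22, f33, f44, f23, f24, f34] at key
  linear_combination key / 4

theorem descartes {x1 y1 x2 y2 x3 y3 x4 y4 a b c d : ℝ} (ha : 0 < a) (hb : 0 < b) (hc : 0 < c)
    (hd : 0 < d)
    (h12 : (a + b) ^ 2 = (x1 - x2) ^ 2 + (y1 - y2) ^ 2)
    (h13 : (a + c) ^ 2 = (x1 - x3) ^ 2 + (y1 - y3) ^ 2)
    (h14 : (a + d) ^ 2 = (x1 - x4) ^ 2 + (y1 - y4) ^ 2)
    (h23 : (b + c) ^ 2 = (x2 - x3) ^ 2 + (y2 - y3) ^ 2)
    (h24 : (b + d) ^ 2 = (x2 - x4) ^ 2 + (y2 - y4) ^ 2)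
    (h34 : (c + d) ^ 2 = (x3 - x4) ^ 2 + (y3 - y4) ^ 2) :
    (1 / a + 1 / b + 1 / c + 1 / d) ^ 2 =
      2 * ((1 / a) ^ 2 + (1 / b) ^ 2 + (1 / c) ^ 2 + (1 / d) ^ 2) := by
  have key := descartes_poly h12 h13 h14 h23 h24 h34
  have e : 1 / a + 1 / b + 1 / c + 1 / d =
      (b * c * d + a * c * d + a * b * d + a * b * c) / (a * b * c * d) := by
    field_simp
  have e' : 2 * ((1 / a) ^ 2 + (1 / b) ^ 2 + (1 / c) ^ 2 + (1 / d) ^ 2) =
      2 * ((b * c * d) ^ 2 + (a * c * d) ^ 2 + (a * b * d) ^ 2 + (a * b * c) ^ 2) /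
        (a * b * c * d) ^ 2 := by
    field_simp
  rw [e, e', div_pow, key]

theorem curvature_bound {k0 k1 k2 k3 k4 k5 m : ℝ} (hm : 0 < m) (h0 : m ≤ k0) (h1 : m ≤ k1)
    (h4 : m ≤ k4)
    (d1 : (k0 + k1 + k2 + k4) ^ 2 = 2 * (k0 ^ 2 + k1 ^ 2 + k2 ^ 2 + k4 ^ 2))
    (d2 : (k0 + k1 + k2 + k3) ^ 2 = 2 * (k0 ^ 2 + k1 ^ 2 + k2 ^ 2 + k3 ^ 2))
    (d3 : (k0 + k1 + k3 + k5) ^ 2 = 2 * (k0 ^ 2 + k1 ^ 2 + k3 ^ 2 + k5 ^ 2))
    (hbig : k0 + k1 + k4 < k2) (h34 : k4 < k3) (h25 : k2 < k5) :
    (19 + 6 * √3) * m ≤ k5 := by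
  have e3 : k3 = 2 * (k0 + k1 + k2) - k4 := by
    have : (k3 - k4) * (k3 + k4 - 2 * (k0 + k1 + k2)) = 0 := by linear_combination d1 - d2
    rcases mul_eq_zero.1 this with h | h <;> linarith
  have e5 : k5 = 2 * (k0 + k1 + k3) - k2 := by
    have : (k5 - k2) * (k5 + k2 - 2 * (k0 + k1 + k3)) = 0 := by linear_combination d2 - d3
    rcases mul_eq_zero.1 this with h | h <;> linarith
  have e2 : (k2 - (k0 + k1 + k4)) ^ 2 = 4 * (k0 * k1 + k0 * k4 + k1 * k4) := by
    linear_combination (-1 : ℝ) * d1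
  have h3 := sq3
  have s3 : 0 < √3 := by positivity
  have e6 : 2 * √3 * m ≤ k2 - (k0 + k1 + k4) := by
    apply le_of_sq_le_sq _ (by linarith)
    rw [e2]
    have a1 : m * m ≤ k0 * k1 := mul_le_mul h0 h1 hm.le (by linarith)
    have a2 : m * m ≤ k0 * k4 := mul_le_mul h0 h4 hm.le (by linarith)
    have a3 : m * m ≤ k1 * k4 := mul_le_mul h1 h4 hm.le (by linarith)
    have a4 : (2 * √3 * m) ^ 2 = 12 * (m * m) := by
      calc (2 * √3 * m) ^ 2 = 4 * (√3 * √3) * (m * m) := by ring
        _ = 12 * (m * m) := by rw [h3]; ring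
    rw [a4]; linarith
  rw [e5, e3]
  linarith

theorem rat_le {p : Fin 6 → ℂ × ℝ} (hp : p ∈ packings G0)
    (hbig : (p 2).2 * ((p 1).2 * (p 4).2 + (p 0).2 * (p 4).2 + (p 0).2 * (p 1).2) <
      (p 0).2 * (p 1).2 * (p 4).2)
    (h34 : (p 3).2 < (p 4).2) (h25 : (p 5).2 < (p 2).2) : ratio p ≤ 1 / (19 + 6 * √3) := by
  obtain ⟨hpos, htan, -⟩ := hp
  have t01 := htan 0 1 (by decide : adjB 0 1 = true)
  have t02 := htan 0 2 (by decide : adjB 0 2 = true)
  have t03 := htan 0 3 (by decide : adjB 0 3 = true)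
  have t04 := htan 0 4 (by decide : adjB 0 4 = true)
  have t05 := htan 0 5 (by decide : adjB 0 5 = true)
  have t12 := htan 1 2 (by decide : adjB 1 2 = true)
  have t13 := htan 1 3 (by decide : adjB 1 3 = true)
  have t14 := htan 1 4 (by decide : adjB 1 4 = true)
  have t15 := htan 1 5 (by decide : adjB 1 5 = true)
  have t23 := htan 2 3 (by decide : adjB 2 3 = true)
  have t24 := htan 2 4 (by decide : adjB 2 4 = true)
  have t35 := htan 3 5 (by decide : adjB 3 5 = true)
  have p0 := hpos 0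
  have p1 := hpos 1
  have p2 := hpos 2
  have p3 := hpos 3
  have p4 := hpos 4
  have p5 := hpos 5
  have d1 := descartes p0 p1 p2 p4 t01 t02 t04 t12 t14 t24
  have d2 := descartes p0 p1 p2 p3 t01 t02 t03 t12 t13 t23
  have d3 := descartes p0 p1 p3 p5 t01 t03 t05 t13 t15 t35
  have hbdd : BddAbove (Set.range fun i => (p i).2) := Set.finite_range _ |>.bddAbove
  have hbdd' : BddBelow (Set.range fun i => (p i).2) := Set.finite_range _ |>.bddBelow
  obtain ⟨M, hM⟩ : ∃ M, M = ⨆ i, (p i).2 := ⟨_, rfl⟩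
  have hle : ∀ i, (p i).2 ≤ M := fun i => hM ▸ le_ciSup hbdd i
  have hMpos : 0 < M := p0.trans_le (hle 0)
  have hk : ∀ i, 1 / M ≤ 1 / (p i).2 := fun i => one_div_le_one_div_of_le (hpos i) (hle i)
  have key := curvature_bound (m := 1 / M) (by positivity) (hk 0) (hk 1) (hk 4) d1 d2 d3
    (by
      rw [div_add_div _ _ p0.ne' p1.ne', div_add_div _ _ (by positivity) p4.ne',
        div_lt_div_iff₀ (by positivity) p2]
      linarith)
    (one_div_lt_one_div_of_lt p3 h34) (one_div_lt_one_div_of_lt p5 h25)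
  have h19 : (0 : ℝ) < 19 + 6 * √3 := by positivity
  have h5 : (p 5).2 ≤ M * (1 / (19 + 6 * √3)) := by
    rw [mul_one_div, div_le_div_iff₀ hMpos p5] at key
    rw [mul_one_div, le_div_iff₀ h19]
    linarith
  unfold ratio
  rw [← hM, div_le_iff₀ hMpos, mul_comm]
  exact (ciInf_le hbdd' 5).trans h5

theorem local_max : IsLocalMaxOn ratio (packings G0) p0 := by
  have h3 := sq3
  have hl := lo3
  have hh := hi3
  have h19 : (0 : ℝ) < 19 + 6 * √3 := by positivity
  have low : 1 / (19 + 6 * √3) ≤ ratio p0 := by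
    have e5 : 1 / (19 + 6 * √3) = (19 - 6 * √3) / 253 := by
      rw [div_eq_div_iff h19.ne' (by norm_num)]; nlinarith
    have hinf : (19 - 6 * √3) / 253 ≤ ⨅ i, (p0 i).2 := by
      apply le_ciInf
      intro i
      fin_cases i <;> simp [p0] <;> linarith
    have hsup : ⨆ i, (p0 i).2 ≤ 1 := by
      apply ciSup_le
      intro i
      fin_cases i <;> simp [p0] <;> linarith
    have hsup0 : 0 < ⨆ i, (p0 i).2 :=
      lt_of_lt_of_le (by simp [p0] : (0 : ℝ) < (p0 0).2)
        (le_ciSup (f := fun i => (p0 i).2) (Set.finite_range _).bddAbove 0)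
    unfold ratio
    rw [e5, le_div_iff₀ hsup0]
    calc (19 - 6 * √3) / 253 * ⨆ i, (p0 i).2 ≤ (19 - 6 * √3) / 253 * 1 :=
          mul_le_mul_of_nonneg_left hsup (by linarith)
      _ = (19 - 6 * √3) / 253 := mul_one _
      _ ≤ _ := hinf
  have c : ∀ i : Fin 6, Continuous fun p : Fin 6 → ℂ × ℝ => (p i).2 := fun i =>
    continuous_snd.comp (continuous_apply i)
  have ev1 : ∀ᶠ p : Fin 6 → ℂ × ℝ in nhds p0,
      (p 2).2 * ((p 1).2 * (p 4).2 + (p 0).2 * (p 4).2 + (p 0).2 * (p 1).2) <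
      (p 0).2 * (p 1).2 * (p 4).2 := by
    apply ContinuousAt.eventually_lt
    · exact ((c 2).mul ((((c 1).mul (c 4)).add ((c 0).mul (c 4))).add
        ((c 0).mul (c 1)))).continuousAt
    · exact (((c 0).mul (c 1)).mul (c 4)).continuousAt
    · simp [p0]; linarith
  have ev2 : ∀ᶠ p : Fin 6 → ℂ × ℝ in nhds p0, (p 3).2 < (p 4).2 := by
    apply ContinuousAt.eventually_lt (c 3).continuousAt (c 4).continuousAt
    simp [p0]; linarith
  have ev3 : ∀ᶠ p : Fin 6 → ℂ × ℝ in nhds p0, (p 5).2 < (p 2).2 := by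
    apply ContinuousAt.eventually_lt (c 5).continuousAt (c 2).continuousAt
    simp [p0]; linarith
  show ∀ᶠ p in nhdsWithin p0 (packings G0), ratio p ≤ ratio p0
  filter_upwards [self_mem_nhdsWithin, nhdsWithin_le_nhds ev1, nhdsWithin_le_nhds ev2,
    nhdsWithin_le_nhds ev3] with p hp h1 h2 h3'
  exact (rat_le hp h1 h2 h3').trans low

theorem ratio_lt : ratio p0 < ratio q0 := by
  have h3 := sq3
  have hl := lo3
  have hh := hi3
  have h19 : (0 : ℝ) < 19 + 6 * √3 := by positivity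
  have up : ratio p0 ≤ 1 / (19 + 6 * √3) := by
    apply rat_le p0_mem <;> simp [p0] <;> linarith
  have e5 : 1 / (19 + 6 * √3) = (19 - 6 * √3) / 253 := by
    rw [div_eq_div_iff h19.ne' (by norm_num)]; nlinarith
  have hinf : (9 - 4 * √3) / 33 ≤ ⨅ i, (q0 i).2 := by
    apply le_ciInf
    intro i
    fin_cases i <;> simp [q0] <;> linarith
  have hsup : ⨆ i, (q0 i).2 ≤ 1 := by
    apply ciSup_le
    intro i
    fin_cases i <;> simp [q0] <;> linarith
  have hsup0 : 0 < ⨆ i, (q0 i).2 :=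
    lt_of_lt_of_le (by simp [q0] : (0 : ℝ) < (q0 0).2)
      (le_ciSup (f := fun i => (q0 i).2) (Set.finite_range _).bddAbove 0)
  have low : (9 - 4 * √3) / 33 ≤ ratio q0 := by
    unfold ratio
    rw [le_div_iff₀ hsup0]
    calc (9 - 4 * √3) / 33 * ⨆ i, (q0 i).2 ≤ (9 - 4 * √3) / 33 * 1 :=
          mul_le_mul_of_nonneg_left hsup (by linarith)
      _ = (9 - 4 * √3) / 33 := mul_one _
      _ ≤ _ := hinf
  rw [e5] at up
  linarith

/-- **Q1 of MP_e55252_co, answered negatively.**  There is a finite planar graph with a fixed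
planar embedding, with a locally maximal packing that is not globally maximal. -/
theorem result :
    ∃ (n : ℕ) (G : PlaneGraph n) (p q : Fin n → ℂ × ℝ),
      p ∈ packings G ∧ IsLocalMaxOn ratio (packings G) p ∧
      q ∈ packings G ∧ ratio p < ratio q :=
  ⟨6, G0, p0, q0, p0_mem, local_max, q0_mem, ratio_lt⟩

end Pool.Agent.Results.MP_e55252_co.LocalNotGlobal
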